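import Pool.Agent.K9h7.CFS.Final

namespace Pool.Agent.Results.MP_b5f1b3_co.ClawFreeSubcubic

open SimpleGraph

/-- `X` is an `s`-packing of `G`: distinct members of `X` are at distance larger than `s`
(the distance of two vertices in different components is `⊤`). -/
def IsPacking {V : Type*} (G : SimpleGraph V) (s : ℕ) (X : Set V) : Prop :=
  ∀ u ∈ X, ∀ v ∈ X, u ≠ v → (s : ℕ∞) < G.edist u v

/-- Every finite claw-free graph of maximum degree at most three (in particular every claw-free
cubic graph) is `(1,1,2,3)`-packing colourable. -/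
theorem result {V : Type*} [Finite V] (G : SimpleGraph V)
    (hdeg : ∀ v, (G.neighborSet v).ncard ≤ 3)
    (hclaw : ¬ (completeBipartiteGraph (Fin 1) (Fin 3) ⊴ G)) :
    ∃ X : Fin 4 → Set V, (∀ v, ∃! i, v ∈ X i) ∧
      IsPacking G 1 (X 0) ∧ IsPacking G 1 (X 1) ∧ IsPacking G 2 (X 2) ∧ IsPacking G 3 (X 3) := by
  obtain ⟨f, g1, g2, g3, g4⟩ := Pool.Agent.K9h7.CFS.good_sub V G (by
    intro v a b c d ha hb hc hd
    by_contra hcon
    push Not at hcon
    obtain ⟨c1, c2, c3, c4, c5, c6⟩ := hcon
    have hsub : ({a, b, c, d} : Set V) ⊆ G.neighborSet v := by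
      rintro w (rfl | rfl | rfl | rfl)
      · exact ha
      · exact hb
      · exact hc
      · exact hd
    have h4 : ({a, b, c, d} : Set V).ncard = 4 := by
      rw [Set.ncard_insert_of_notMem (by simp [c1, c2, c3]),
        Set.ncard_insert_of_notMem (by simp [c4, c5]), Set.ncard_pair c6]
    have := Set.ncard_le_ncard hsub (Set.toFinite _)
    have := hdeg v
    omega) (by
    intro v x y z hx hy hz hxy hxz hyz
    by_contra hcon
    push Not at hcon
    obtain ⟨c1, c2, c3⟩ := hcon
    apply hclaw
    have c1' : ¬ G.Adj y x := fun h => c1 h.symm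
    have c2' : ¬ G.Adj z x := fun h => c2 h.symm
    have c3' : ¬ G.Adj z y := fun h => c3 h.symm
    let g : Fin 1 ⊕ Fin 3 → V := Sum.elim (fun _ => v) ![x, y, z]
    have hg : Function.Injective g := by
      rintro (a | a) (b | b) h
      · rw [Subsingleton.elim a b]
      · exfalso
        fin_cases b
        · exact hx.ne h
        · exact hy.ne h
        · exact hz.ne h
      · exfalso
        fin_cases a
        · exact hx.ne h.symm
        · exact hy.ne h.symm
        · exact hz.ne h.symm
      · congr 1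
        fin_cases a <;> fin_cases b
        · rfl
        · exact absurd h hxy
        · exact absurd h hxz
        · exact absurd h hxy.symm
        · rfl
        · exact absurd h hyz
        · exact absurd h hxz.symm
        · exact absurd h hyz.symm
        · rfl
    refine ⟨⟨⟨g, hg⟩, ?_⟩⟩
    rintro (a | a) (b | b)
    · simp [g]
    · fin_cases b <;> simp [g, hx, hy, hz]
    · fin_cases a <;> simp [g, hx.symm, hy.symm, hz.symm]
    · fin_cases a <;> fin_cases b <;> simp [g, c1, c2, c3, c1', c2', c3'])
  refine ⟨fun i => {v | f v = i}, fun v => ⟨f v, rfl, fun i hi => hi.symm⟩, ?_, ?_, ?_, ?_⟩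
  · intro u hu v hv hne
    by_contra h
    rcases Pool.Agent.H7X.CF.edist_cases hne 1 (by norm_num) h with h | ⟨h, -⟩ | ⟨h, -⟩
    · exact g1 u v h (Eq.trans hu (Eq.symm hv))
    · omega
    · omega
  · intro u hu v hv hne
    by_contra h
    rcases Pool.Agent.H7X.CF.edist_cases hne 1 (by norm_num) h with h | ⟨h, -⟩ | ⟨h, -⟩
    · exact g1 u v h (Eq.trans hu (Eq.symm hv))
    · omega
    · omega
  · intro u hu v hv hne
    by_contra h
    rcases Pool.Agent.H7X.CF.edist_cases hne 2 (by norm_num) h with h | ⟨-, w, h1, h2⟩ | ⟨h, -⟩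
    · exact g1 u v h (Eq.trans hu (Eq.symm hv))
    · exact g2 u w v h1 h2 hne hu hv
    · omega
  · intro u hu v hv hne
    by_contra h
    rcases Pool.Agent.H7X.CF.edist_cases hne 3 (by norm_num) h with
      h | ⟨-, w, h1, h2⟩ | ⟨-, w, x, h1, h2, h3⟩
    · exact g1 u v h (Eq.trans hu (Eq.symm hv))
    · exact g3 u w v h1 h2 hne hu hv
    · exact g4 u w x v h1 h2 h3 hne hu hv

end Pool.Agent.Results.MP_b5f1b3_co.ClawFreeSubcubic
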